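import Pool.Agent.helper87.X4.Spec

set_option autoImplicit false

namespace Pool.Agent.X4

open Matrix Pool.Agent.PL

/-- entries of norm at most `c` -/
def L1_Sm {F : Type} [NormedField F] {n : Type} (c : ℝ) (M : Matrix n n F) : Prop :=
  ∀ i j, ‖M i j‖ ≤ c

theorem L1_one {F : Type} [NormedField F] {n : Type} [DecidableEq n] :
    L1_Sm 1 (1 : Matrix n n F) := by
  intro i j
  rw [Matrix.one_apply]
  split_ifs
  · rw [norm_one]
  · rw [norm_zero]
    exact zero_le_one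

theorem L1_mul {F : Type} [NormedField F] [IsUltrametricDist F] {n : Type} [Fintype n]
    {c d : ℝ} (hc : 0 ≤ c) (hd : 0 ≤ d) {M M' : Matrix n n F} (h : L1_Sm c M) (h' : L1_Sm d M') :
    L1_Sm (c * d) (M * M') := by
  intro i j
  rw [Matrix.mul_apply]
  refine IsUltrametricDist.norm_sum_le_of_forall_le_of_nonneg (mul_nonneg hc hd) fun k _ => ?_
  rw [norm_mul]
  exact mul_le_mul (h i k) (h' k j) (norm_nonneg _) hc

theorem L1_add {F : Type} [NormedField F] [IsUltrametricDist F] {n : Type}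
    {c : ℝ} {M M' : Matrix n n F} (h : L1_Sm c M) (h' : L1_Sm c M') :
    L1_Sm c (M + M') := fun i j =>
  (IsUltrametricDist.norm_add_le_max _ _).trans (max_le (h i j) (h' i j))

theorem L1_sum {F : Type} [NormedField F] [IsUltrametricDist F] {n : Type}
    {c : ℝ} (hc : 0 ≤ c) {ι : Type} (s : Finset ι) (f : ι → Matrix n n F)
    (h : ∀ i ∈ s, L1_Sm c (f i)) : L1_Sm c (∑ i ∈ s, f i) := by
  intro i j
  rw [Matrix.sum_apply]
  exact IsUltrametricDist.norm_sum_le_of_forall_le_of_nonneg hc fun k hk => h k hk i j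

theorem L1_vec {F : Type} [NormedField F] [IsUltrametricDist F] {n : Type} [Fintype n]
    {c : ℝ} (hc : 0 ≤ c) {M : Matrix n n F} (h : L1_Sm c M) (w : n → F) :
    ‖M *ᵥ w‖ ≤ c * ‖w‖ := by
  rw [pi_norm_le_iff_of_nonneg (mul_nonneg hc (norm_nonneg _))]
  intro i
  unfold Matrix.mulVec dotProduct
  refine IsUltrametricDist.norm_sum_le_of_forall_le_of_nonneg
    (mul_nonneg hc (norm_nonneg _)) fun k _ => ?_
  rw [norm_mul]
  exact mul_le_mul (h i k) (norm_le_pi_norm w k) (norm_nonneg _) hc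

theorem L1_pow_one {F : Type} [NormedField F] [IsUltrametricDist F] {n : Type} [Fintype n]
    [DecidableEq n] {T : Matrix n n F} (h : L1_Sm 1 T) (k : ℕ) : L1_Sm 1 (T ^ k) := by
  induction k with
  | zero => rw [pow_zero]; exact L1_one
  | succ k ih =>
    rw [pow_succ]
    have := L1_mul zero_le_one zero_le_one ih h
    rwa [one_mul] at this

/-- `T ^ k - 1` is as small as `T - 1` -/
theorem L1_pow_sub {F : Type} [NormedField F] [IsUltrametricDist F] {n : Type} [Fintype n]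
    [DecidableEq n] {c : ℝ} (hc : 0 ≤ c) (hc1 : c ≤ 1) {T : Matrix n n F}
    (h : L1_Sm c (T - 1)) (k : ℕ) : L1_Sm c (T ^ k - 1) := by
  have hT : L1_Sm 1 T := by
    have := L1_add (fun i j => (h i j).trans hc1 : L1_Sm 1 (T - 1)) L1_one
    rwa [sub_add_cancel] at this
  rw [← geom_sum_mul]
  have := L1_mul zero_le_one hc (L1_sum zero_le_one (Finset.range k) (fun i => T ^ i)
    fun i _ => L1_pow_one hT i) h
  rwa [one_mul] at this

/-- one step -/
theorem L1_step {F : Type} [NormedField F] [IsUltrametricDist F] [CharZero F] (l : ℕ)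
    (hl : l.Prime) (hl1 : ‖(l : F)‖ < 1) {n : Type} [Fintype n] [DecidableEq n]
    (T : Matrix n n F) (h : L1_Sm (‖(l : F)‖ ^ 2) (T - 1)) (w : n → F) :
    ‖(T ^ l - 1) *ᵥ w‖ = ‖(l : F)‖ * ‖(T - 1) *ᵥ w‖ := by
  have hl0 : (l : F) ≠ 0 := by exact_mod_cast hl.ne_zero
  have hr : 0 < ‖(l : F)‖ := norm_pos_iff.2 hl0
  have hr2 : ‖(l : F)‖ ^ 2 < ‖(l : F)‖ := by nlinarith
  set x := (T - 1) *ᵥ w with hx
  have e1 : (T ^ l - 1) *ᵥ w = (l : F) • x + (∑ k ∈ Finset.range l, (T ^ k - 1)) *ᵥ x := by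
    have e0 : ∑ k ∈ Finset.range l, T ^ k =
        (l : F) • (1 : Matrix n n F) + ∑ k ∈ Finset.range l, (T ^ k - 1) := by
      rw [Finset.sum_sub_distrib, Finset.sum_const, Finset.card_range, Nat.cast_smul_eq_nsmul]
      abel
    rw [← geom_sum_mul, hx, ← Matrix.mulVec_mulVec, e0, Matrix.add_mulVec, Matrix.smul_mulVec,
      Matrix.one_mulVec]
  rw [e1]
  have hE : L1_Sm (‖(l : F)‖ ^ 2) (∑ k ∈ Finset.range l, (T ^ k - 1)) :=
    L1_sum (by positivity) _ _ fun k _ => L1_pow_sub (by positivity) (by nlinarith) h k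
  have h2 := L1_vec (by positivity) hE x
  have h3 : ‖(l : F) • x‖ = ‖(l : F)‖ * ‖x‖ := norm_smul _ _
  by_cases hx0 : x = 0
  · rw [hx0]
    simp
  · have hxp : 0 < ‖x‖ := norm_pos_iff.2 hx0
    have h4 : ‖(∑ k ∈ Finset.range l, (T ^ k - 1)) *ᵥ x‖ < ‖(l : F) • x‖ := by
      rw [h3]
      nlinarith
    rw [IsUltrametricDist.norm_add_eq_max_of_norm_ne_norm h4.ne', max_eq_left h4.le, h3]

theorem L1_col {F : Type} [NormedField F] {n : Type} [Fintype n] [DecidableEq n]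
    (M : Matrix n n F) (i j : n) : M i j = (M *ᵥ (Pi.single j 1)) i := by
  rw [Matrix.mulVec_single_one]
  rfl

theorem L1 : L1_stmt := by
  intro F _ _ _ l hl hl1 n _ _ T hT k
  have hl0 : (l : F) ≠ 0 := by exact_mod_cast hl.ne_zero
  have hr : 0 < ‖(l : F)‖ := norm_pos_iff.2 hl0
  induction k with
  | zero =>
    refine ⟨fun w => by rw [pow_zero, pow_one, pow_zero, one_mul], fun i j => ?_⟩
    rw [pow_zero, pow_one, zero_add]
    exact hT i j
  | succ k ih =>
    obtain ⟨h1, h2⟩ := ih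
    have hsm : L1_Sm (‖(l : F)‖ ^ 2) (T ^ (l ^ k) - 1) := fun i j =>
      (h2 i j).trans (pow_le_pow_of_le_one (norm_nonneg _) hl1.le (by omega))
    have hs := L1_step l hl hl1 (T ^ (l ^ k)) hsm
    have e : T ^ (l ^ (k + 1)) = (T ^ (l ^ k)) ^ l := by
      rw [← pow_mul, pow_succ]
    rw [e]
    constructor
    · intro w
      rw [hs w, h1 w, pow_succ]
      ring
    · intro i j
      rw [L1_col (((T ^ (l ^ k)) ^ l - 1)) i j]
      refine (norm_le_pi_norm _ i).trans ?_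
      rw [hs]
      have h3 : ‖(T ^ (l ^ k) - 1) *ᵥ (Pi.single j 1)‖ ≤ ‖(l : F)‖ ^ (k + 2) := by
        rw [pi_norm_le_iff_of_nonneg (by positivity)]
        intro i'
        rw [← L1_col]
        exact h2 i' j
      calc ‖(l : F)‖ * ‖(T ^ (l ^ k) - 1) *ᵥ (Pi.single j 1)‖
          ≤ ‖(l : F)‖ * ‖(l : F)‖ ^ (k + 2) := mul_le_mul_of_nonneg_left h3 hr.le
        _ = ‖(l : F)‖ ^ (k + 1 + 2) := by ring

end Pool.Agent.X4
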